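import Mathlib

/-!
# A computable matching along a sequence of permutations

`σ 0, σ 1, …` is a computable sequence of permutations of `ℕ`. We construct numbers `q e` and a
computable permutation `π` such that any two colourings `a`, `b` of `ℕ` with
`a (q e) = b (σ e (q e))` for all `e` satisfy `a n = b (π n)` for all `n`: a back and forth
construction, in which the pigeonhole principle gives the next edge.
-/

set_option autoImplicit false

namespace Pool.Agent.Helper65.CU

/-- State `((M, N), (B, p))`: `M` is the matching (source, target), `N` the inverse matching, `B` the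
list of active pairs (target, source), `p` the phase. The source is the domain side if `p` is even
and the range side if `p` is odd. -/
abbrev St : Type := (List (ℕ × ℕ) × List (ℕ × ℕ)) × (List (ℕ × ℕ) × ℕ)

/-- candidate number `j` -/
def cand (s : St) (j : ℕ) : ℕ :=
  Nat.casesOn (motive := fun _ => ℕ) j (s.2.2 / 2) (fun i => ((s.2.1[i]?).getD (0, 0)).2)

/-- candidate number `j` is acceptable -/
def good (W : ℕ → ℕ → ℕ) (a : St × ℕ) (j : ℕ) : Bool :=
  (!(List.lookup (W (Nat.pair a.1.2.2 a.2) (cand a.1 j)) a.1.2.1).isSome) ||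
    !(j - a.1.2.1.length == 0)

theorem exists_good (W : ℕ → ℕ → ℕ) (a : St × ℕ) : ∃ j, good W a j = true :=
  ⟨a.1.2.1.length + 1, by simp [good]⟩

/-- the first acceptable candidate -/
noncomputable def fnd (W : ℕ → ℕ → ℕ) (a : St × ℕ) : ℕ := Nat.find (exists_good W a)

/-- its target -/
noncomputable def tgt (W : ℕ → ℕ → ℕ) (a : St × ℕ) : ℕ :=
  W (Nat.pair a.1.2.2 a.2) (cand a.1 (fnd W a))

/-- one step, with the edge number `a.2` -/
noncomputable def step (W : ℕ → ℕ → ℕ) (a : St × ℕ) : St :=
  bif (List.lookup (a.1.2.2 / 2) a.1.1.1).isSome then ((a.1.1.2, a.1.1.1), ([], a.1.2.2 + 1))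
  else bif (List.lookup (tgt W a) a.1.1.2).isSome then
    (a.1.1, ((tgt W a, (List.lookup (tgt W a) a.1.1.2).getD 0) :: a.1.2.1, a.1.2.2))
  else (((tgt W a, a.1.2.2 / 2) :: a.1.1.2, (a.1.2.2 / 2, tgt W a) :: a.1.1.1),
    ([], a.1.2.2 + 1))

/-- the states -/
noncomputable def st (W : ℕ → ℕ → ℕ) (n : ℕ) : St :=
  Nat.rec ((([], []), ([], 0)) : St) (fun k s => step W (s, k)) n

/-- the matching, from the domain side -/
def ly (s : St) : List (ℕ × ℕ) := bif s.2.2.bodd then s.1.2 else s.1.1

/-- the matching, from the range side -/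
def lx (s : St) : List (ℕ × ℕ) := bif s.2.2.bodd then s.1.1 else s.1.2

section computable

theorem cand_comp : Computable₂ cand := by
  have h : Primrec₂ cand := by
    have h1 : Primrec (fun a : St × ℕ => a.1.2.2 / 2) :=
      Primrec.nat_div.comp (Primrec.snd.comp (Primrec.snd.comp Primrec.fst)) (Primrec.const 2)
    have h2 : Primrec₂ (fun (a : St × ℕ) (i : ℕ) => ((a.1.2.1[i]?).getD (0, 0)).2) :=
      Primrec.snd.comp (Primrec.option_getD.comp
        (Primrec.list_getElem?.comp (Primrec.fst.comp (Primrec.snd.comp
          (Primrec.fst.comp Primrec.fst))) Primrec.snd) (Primrec.const (0, 0)))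
    exact Primrec.nat_casesOn Primrec.snd h1 h2
  exact h.to_comp

theorem good_comp {W : ℕ → ℕ → ℕ} (hW : Computable₂ W) : Computable₂ (good W) := by
  have hs : Computable (fun p : (St × ℕ) × ℕ => p.1.1) := Computable.fst.comp Computable.fst
  have hp : Computable (fun p : (St × ℕ) × ℕ => p.1.1.2.2) :=
    Computable.snd.comp (Computable.snd.comp hs)
  have hB : Computable (fun p : (St × ℕ) × ℕ => p.1.1.2.1) :=
    Computable.fst.comp (Computable.snd.comp hs)
  have he : Computable (fun p : (St × ℕ) × ℕ => p.1.2) := Computable.snd.comp Computable.fst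
  have hu : Computable (fun p : (St × ℕ) × ℕ => Nat.pair p.1.1.2.2 p.1.2) :=
    (Primrec₂.natPair.to_comp).comp hp he
  have hc : Computable (fun p : (St × ℕ) × ℕ => cand p.1.1 p.2) := cand_comp.comp hs Computable.snd
  have hw := hW.comp hu hc
  have hl : Computable₂ (fun (n : ℕ) (D : List (ℕ × ℕ)) => List.lookup n D) :=
    Primrec.listLookup.to_comp
  have h1 : Computable (fun p : (St × ℕ) × ℕ =>
      !(List.lookup (W (Nat.pair p.1.1.2.2 p.1.2) (cand p.1.1 p.2)) p.1.1.2.1).isSome) :=
    (Primrec.not.to_comp).comp ((Primrec.option_isSome.to_comp).comp (hl.comp hw hB))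
  have h2 : Computable (fun p : (St × ℕ) × ℕ => !(p.2 - p.1.1.2.1.length == 0)) :=
    (Primrec.not.to_comp).comp ((Primrec.beq.to_comp).comp
      ((Primrec.nat_sub.to_comp).comp Computable.snd (Computable.list_length.comp hB))
      (Computable.const 0))
  exact (Primrec.or.to_comp).comp h1 h2

theorem fnd_comp {W : ℕ → ℕ → ℕ} (hW : Computable₂ W) : Computable (fnd W) := by
  have h1 : Partrec₂ (fun (a : St × ℕ) (e : ℕ) => (Part.some (good W a e) : Part Bool)) :=
    (good_comp hW).partrec₂
  have h2 := Partrec.rfind h1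
  refine h2.of_eq (fun a => ?_)
  refine Part.eq_some_iff.2 (Nat.mem_rfind.2 ⟨?_, fun {m} hm => ?_⟩)
  · have := Nat.find_spec (exists_good W a)
    exact Part.mem_some_iff.2 this.symm
  · have := Nat.find_min (exists_good W a) hm
    have h3 : good W a m = false := by simpa using this
    exact Part.mem_some_iff.2 h3.symm

theorem tgt_comp {W : ℕ → ℕ → ℕ} (hW : Computable₂ W) : Computable (tgt W) := by
  have hp : Computable (fun p : St × ℕ => p.1.2.2) :=
    Computable.snd.comp (Computable.snd.comp Computable.fst)
  exact hW.comp ((Primrec₂.natPair.to_comp).comp hp Computable.snd)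
    (cand_comp.comp Computable.fst (fnd_comp hW))

theorem step_comp {W : ℕ → ℕ → ℕ} (hW : Computable₂ W) : Computable (step W) := by
  have hp : Computable (fun p : St × ℕ => p.1.2.2) :=
    Computable.snd.comp (Computable.snd.comp Computable.fst)
  have hB : Computable (fun p : St × ℕ => p.1.2.1) :=
    Computable.fst.comp (Computable.snd.comp Computable.fst)
  have hMN : Computable (fun p : St × ℕ => p.1.1) := Computable.fst.comp Computable.fst
  have hM : Computable (fun p : St × ℕ => p.1.1.1) := Computable.fst.comp hMN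
  have hN : Computable (fun p : St × ℕ => p.1.1.2) := Computable.snd.comp hMN
  have ht : Computable (fun p : St × ℕ => p.1.2.2 / 2) :=
    (Primrec.nat_div.to_comp).comp hp (Computable.const 2)
  have hs : Computable (fun p : St × ℕ => p.1.2.2 + 1) := Computable.succ.comp hp
  have hl : Computable₂ (fun (n : ℕ) (D : List (ℕ × ℕ)) => List.lookup n D) :=
    Primrec.listLookup.to_comp
  have hc := tgt_comp hW
  have hiS : Computable (fun o : Option ℕ => o.isSome) := Primrec.option_isSome.to_comp
  refine Computable.cond (hiS.comp (hl.comp ht hM))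
    ((hN.pair hM).pair ((Computable.const []).pair hs)) ?_
  refine Computable.cond (hiS.comp (hl.comp hc hN))
    (hMN.pair ((Computable.list_cons.comp (hc.pair (Computable.option_getD (hl.comp hc hN)
      (Computable.const 0))) hB).pair hp)) ?_
  exact ((Computable.list_cons.comp (hc.pair ht) hN).pair
    (Computable.list_cons.comp (ht.pair hc) hM)).pair ((Computable.const []).pair hs)

theorem st_comp {W : ℕ → ℕ → ℕ} (hW : Computable₂ W) : Computable (st W) := by
  have h : Computable₂ (fun (_ : ℕ) (p : ℕ × St) => step W (p.2, p.1)) :=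
    (step_comp hW).comp ((Computable.snd.comp Computable.snd).pair
      (Computable.fst.comp Computable.snd))
  exact Computable.nat_rec (f := fun n : ℕ => n) (g := fun _ => ((([], []), ([], 0)) : St))
    (h := fun (_ : ℕ) (p : ℕ × St) => step W (p.2, p.1)) Computable.id (Computable.const _) h

theorem ly_comp : Computable ly := by
  have hp : Computable (fun s : St => s.2.2) := Computable.snd.comp Computable.snd
  exact Computable.cond ((Primrec.nat_bodd.to_comp).comp hp)
    (Computable.snd.comp Computable.fst) (Computable.fst.comp Computable.fst)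

end computable

/-! ### Lists of pairs -/

theorem look_cons (m x y : ℕ) (L : List (ℕ × ℕ)) :
    List.lookup m ((x, y) :: L) = if m = x then some y else List.lookup m L := by
  rw [List.lookup_cons]
  by_cases h : m = x
  · simp [h]
  · have : (m == x) = false := by simpa using h
    rw [this, if_neg h]

theorem mem_keys {m b : ℕ} : ∀ {D : List (ℕ × ℕ)}, List.lookup m D = some b →
    m ∈ D.map Prod.fst
  | [], h => by simp at h
  | (x, y) :: D, h => by
    rw [look_cons] at h
    by_cases hx : m = x
    · simp [hx]
    · rw [if_neg hx] at h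
      have := mem_keys (D := D) h
      simp only [List.map_cons, List.mem_cons]
      exact Or.inr this

theorem not_mem_keys {m : ℕ} : ∀ {D : List (ℕ × ℕ)}, List.lookup m D = none →
    m ∉ D.map Prod.fst
  | [], _ => by simp
  | (x, y) :: D, h => by
    rw [look_cons] at h
    by_cases hx : m = x
    · rw [if_pos hx] at h; simp at h
    · rw [if_neg hx] at h
      have := not_mem_keys (D := D) h
      simp only [List.map_cons, List.mem_cons, not_or]
      exact ⟨hx, this⟩

/-! ### The invariants -/

/-- the invariants of a state -/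
structure Inv (s : St) : Prop where
  match_iff : ∀ m c, List.lookup m s.1.1 = some c ↔ List.lookup c s.1.2 = some m
  active : ∀ x ∈ s.2.1, List.lookup x.2 s.1.1 = some x.1
  nodup : (s.2.1.map Prod.fst).Nodup

theorem cand_zero (s : St) : cand s 0 = s.2.2 / 2 := rfl

theorem cand_succ (s : St) {i : ℕ} (hi : i < s.2.1.length) : cand s (i + 1) = (s.2.1[i]).2 := by
  simp [cand, hi]

theorem fnd_spec {W : ℕ → ℕ → ℕ} (hW : ∀ u, Function.Injective (W u)) {s : St} (hs : Inv s)
    (e : ℕ) (ht : List.lookup (s.2.2 / 2) s.1.1 = none) :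
    fnd W (s, e) ≤ s.2.1.length ∧ List.lookup (tgt W (s, e)) s.2.1 = none := by
  have key : ∃ j, j ≤ s.2.1.length ∧
      List.lookup (W (Nat.pair s.2.2 e) (cand s j)) s.2.1 = none := by
    by_contra hno
    push Not at hno
    have hinj : Set.InjOn (fun j => W (Nat.pair s.2.2 e) (cand s j))
        (Finset.range (s.2.1.length + 1) : Set ℕ) := by
      intro j hj j' hj' hjj
      have hjl : j < s.2.1.length + 1 := by simpa using hj
      have hjl' : j' < s.2.1.length + 1 := by simpa using hj'
      have hc : cand s j = cand s j' := hW _ hjj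
      rcases j with _ | i
      · rcases j' with _ | i'
        · rfl
        · exfalso
          have hi' : i' < s.2.1.length := by omega
          rw [cand_zero, cand_succ s hi'] at hc
          have := hs.active _ (List.getElem_mem hi')
          rw [← hc, ht] at this
          simp at this
      · have hi : i < s.2.1.length := by omega
        rcases j' with _ | i'
        · exfalso
          rw [cand_zero, cand_succ s hi] at hc
          have := hs.active _ (List.getElem_mem hi)
          rw [hc, ht] at this
          simp at this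
        · have hi' : i' < s.2.1.length := by omega
          rw [cand_succ s hi, cand_succ s hi'] at hc
          have h1 := hs.active _ (List.getElem_mem hi)
          have h2 := hs.active _ (List.getElem_mem hi')
          rw [hc, h2] at h1
          have h3 : (s.2.1[i']).1 = (s.2.1[i]).1 := Option.some_inj.1 h1
          have h4 : (s.2.1.map Prod.fst)[i]'(by simpa using hi) =
              (s.2.1.map Prod.fst)[i']'(by simpa using hi') := by
            simp only [List.getElem_map]
            exact h3.symm
          have := (List.Nodup.getElem_inj_iff hs.nodup).1 h4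
          rw [this]
    have hmaps : ∀ j ∈ Finset.range (s.2.1.length + 1),
        W (Nat.pair s.2.2 e) (cand s j) ∈ (s.2.1.map Prod.fst).toFinset := by
      intro j hj
      have hjl : j ≤ s.2.1.length := by
        have := Finset.mem_range.1 hj; omega
      obtain ⟨b, hb⟩ := Option.ne_none_iff_exists'.1 (hno j hjl)
      exact List.mem_toFinset.2 (mem_keys hb)
    have hcard := Finset.card_le_card_of_injOn _ hmaps hinj
    rw [Finset.card_range] at hcard
    have h5 := List.toFinset_card_le (s.2.1.map Prod.fst)
    rw [List.length_map] at h5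
    omega
  obtain ⟨j, hj, hjn⟩ := key
  have hg : good W (s, e) j = true := by
    simp only [good, hjn]
    simp
  have hle : fnd W (s, e) ≤ j := Nat.find_min' _ hg
  have hle' : fnd W (s, e) ≤ s.2.1.length := hle.trans hj
  refine ⟨hle', ?_⟩
  have hf : good W (s, e) (fnd W (s, e)) = true := Nat.find_spec (exists_good W (s, e))
  simp only [good, Nat.sub_eq_zero_of_le hle', beq_self_eq_true, Bool.not_true, Bool.or_false,
    Bool.not_eq_true', Option.isSome_eq_false_iff, Option.isNone_iff_eq_none] at hf
  exact hf

/-- the chosen candidate is the target number of the phase or an active source -/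
theorem cand_cases {s : St} {j : ℕ} (hj : j ≤ s.2.1.length) :
    cand s j = s.2.2 / 2 ∨ ∃ x ∈ s.2.1, cand s j = x.2 := by
  rcases j with _ | i
  · exact Or.inl rfl
  · have hi : i < s.2.1.length := by omega
    exact Or.inr ⟨_, List.getElem_mem hi, cand_succ s hi⟩

/-! ### The three kinds of steps -/

theorem step_old {W : ℕ → ℕ → ℕ} {s : St} {e : ℕ}
    (h : List.lookup (s.2.2 / 2) s.1.1 ≠ none) :
    step W (s, e) = ((s.1.2, s.1.1), ([], s.2.2 + 1)) := by
  obtain ⟨b, hb⟩ := Option.ne_none_iff_exists'.1 h
  simp only [step, hb, Option.isSome_some, cond_true]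

theorem step_act {W : ℕ → ℕ → ℕ} {s : St} {e m : ℕ}
    (h : List.lookup (s.2.2 / 2) s.1.1 = none)
    (h' : List.lookup (tgt W (s, e)) s.1.2 = some m) :
    step W (s, e) = (s.1, ((tgt W (s, e), m) :: s.2.1, s.2.2)) := by
  simp only [step, h, h', Option.isSome_none, cond_false, Option.isSome_some, cond_true,
    Option.getD_some]

theorem step_new {W : ℕ → ℕ → ℕ} {s : St} {e : ℕ}
    (h : List.lookup (s.2.2 / 2) s.1.1 = none)
    (h' : List.lookup (tgt W (s, e)) s.1.2 = none) :
    step W (s, e) = (((tgt W (s, e), s.2.2 / 2) :: s.1.2, (s.2.2 / 2, tgt W (s, e)) :: s.1.1),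
      ([], s.2.2 + 1)) := by
  simp only [step, h, h', Option.isSome_none, cond_false]

theorem inv_step {W : ℕ → ℕ → ℕ} (hW : ∀ u, Function.Injective (W u)) {s : St} (hs : Inv s)
    (e : ℕ) : Inv (step W (s, e)) := by
  rcases h : List.lookup (s.2.2 / 2) s.1.1 with _ | b
  · obtain ⟨-, hB⟩ := fnd_spec hW hs e h
    rcases h' : List.lookup (tgt W (s, e)) s.1.2 with _ | m
    · rw [step_new h h']
      refine ⟨?_, by simp, by simp⟩
      intro m c
      simp only [look_cons]
      by_cases h1 : m = tgt W (s, e)
      · by_cases h2 : c = s.2.2 / 2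
        · simp [h1, h2]
        · rw [if_pos h1, if_neg h2]
          constructor
          · intro h3; exact absurd (Option.some_inj.1 h3).symm h2
          · intro h3
            have := (hs.match_iff _ _).1 h3
            rw [h1, h'] at this
            simp at this
      · by_cases h2 : c = s.2.2 / 2
        · rw [if_neg h1, if_pos h2]
          constructor
          · intro h3
            have := (hs.match_iff _ _).2 h3
            rw [h2, h] at this
            simp at this
          · intro h3; exact absurd (Option.some_inj.1 h3).symm h1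
        · rw [if_neg h1, if_neg h2]
          exact (hs.match_iff c m).symm
    · rw [step_act h h']
      refine ⟨hs.match_iff, ?_, ?_⟩
      · intro x hx
        rcases List.mem_cons.1 hx with rfl | hx
        · exact (hs.match_iff _ _).2 h'
        · exact hs.active x hx
      · simp only [List.map_cons, List.nodup_cons]
        exact ⟨not_mem_keys hB, hs.nodup⟩
  · rw [step_old (by rw [h]; simp)]
    exact ⟨fun m c => (hs.match_iff c m).symm, by simp, by simp⟩

theorem st_succ (W : ℕ → ℕ → ℕ) (n : ℕ) : st W (n + 1) = step W (st W n, n) := rfl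

theorem inv_st {W : ℕ → ℕ → ℕ} (hW : ∀ u, Function.Injective (W u)) : ∀ n, Inv (st W n)
  | 0 => ⟨fun m c => by simp [st], by simp [st], by simp [st]⟩
  | n + 1 => by rw [st_succ]; exact inv_step hW (inv_st hW n) n

/-! ### Persistence -/

theorem persist {W : ℕ → ℕ → ℕ} {s : St} {e : ℕ} {m c : ℕ} :
    (List.lookup m (ly s) = some c → List.lookup m (ly (step W (s, e))) = some c) ∧
    (List.lookup m (lx s) = some c → List.lookup m (lx (step W (s, e))) = some c) := by
  rcases h : List.lookup (s.2.2 / 2) s.1.1 with _ | b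
  · rcases h' : List.lookup (tgt W (s, e)) s.1.2 with _ | m'
    · rw [step_new h h']
      simp only [ly, lx, Nat.bodd_succ]
      rcases hb : s.2.2.bodd with _ | _
      · simp only [Bool.not_false, cond_true, cond_false, look_cons]
        constructor
        · intro h1
          rw [if_neg, h1]
          rintro rfl; rw [h] at h1; simp at h1
        · intro h1
          rw [if_neg, h1]
          rintro rfl; rw [h'] at h1; simp at h1
      · simp only [Bool.not_true, cond_true, cond_false, look_cons]
        constructor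
        · intro h1
          rw [if_neg, h1]
          rintro rfl; rw [h'] at h1; simp at h1
        · intro h1
          rw [if_neg, h1]
          rintro rfl; rw [h] at h1; simp at h1
    · rw [step_act h h']
      exact ⟨id, id⟩
  · rw [step_old (by rw [h]; simp)]
    simp only [ly, lx, Nat.bodd_succ]
    rcases hb : s.2.2.bodd with _ | _ <;> simp

theorem persist_ly {W : ℕ → ℕ → ℕ} {m c k l : ℕ} (hkl : k ≤ l)
    (h : List.lookup m (ly (st W k)) = some c) : List.lookup m (ly (st W l)) = some c := by
  induction l, hkl using Nat.le_induction with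
  | base => exact h
  | succ l _ ih => rw [st_succ]; exact persist.1 ih

theorem persist_lx {W : ℕ → ℕ → ℕ} {m c k l : ℕ} (hkl : k ≤ l)
    (h : List.lookup m (lx (st W k)) = some c) : List.lookup m (lx (st W l)) = some c := by
  induction l, hkl using Nat.le_induction with
  | base => exact h
  | succ l _ ih => rw [st_succ]; exact persist.2 ih

theorem ly_iff_lx {s : St} (hs : Inv s) (m c : ℕ) :
    List.lookup m (ly s) = some c ↔ List.lookup c (lx s) = some m := by
  simp only [ly, lx]
  rcases s.2.2.bodd with _ | _
  · exact hs.match_iff m c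
  · exact (hs.match_iff c m).symm

/-! ### Every phase ends -/

theorem phase_cases (W : ℕ → ℕ → ℕ) (s : St) (e : ℕ) :
    (step W (s, e)).2.2 = s.2.2 + 1 ∨ ((step W (s, e)).1 = s.1 ∧ (step W (s, e)).2.2 = s.2.2 ∧
      (step W (s, e)).2.1.length = s.2.1.length + 1) := by
  rcases h : List.lookup (s.2.2 / 2) s.1.1 with _ | b
  · rcases h' : List.lookup (tgt W (s, e)) s.1.2 with _ | m'
    · rw [step_new h h']; exact Or.inl rfl
    · rw [step_act h h']; exact Or.inr ⟨rfl, rfl, rfl⟩
  · rw [step_old (by rw [h]; simp)]; exact Or.inl rfl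

theorem active_le {s : St} (hs : Inv s) : s.2.1.length ≤ s.1.2.length := by
  have h : (s.2.1.map Prod.fst) ⊆ (s.1.2.map Prod.fst) := by
    intro c hc
    obtain ⟨x, hx, rfl⟩ := List.mem_map.1 hc
    exact mem_keys ((hs.match_iff _ _).1 (hs.active x hx))
  have := (List.subperm_of_subset hs.nodup h).length_le
  simpa using this

theorem phase_ends {W : ℕ → ℕ → ℕ} (hW : ∀ u, Function.Injective (W u)) (n : ℕ) :
    ∃ k, n ≤ k ∧ (st W k).2.2 = (st W n).2.2 ∧ (st W (k + 1)).2.2 = (st W n).2.2 + 1 := by
  by_contra hno
  push Not at hno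
  have key : ∀ k, (st W (n + k)).1 = (st W n).1 ∧ (st W (n + k)).2.2 = (st W n).2.2 ∧
      k ≤ (st W (n + k)).2.1.length := by
    intro k
    induction k with
    | zero => exact ⟨rfl, rfl, Nat.zero_le _⟩
    | succ k ih =>
      obtain ⟨h1, h2, h3⟩ := ih
      have h4 := hno (n + k) (Nat.le_add_right _ _) h2
      rw [← h2] at h4
      rw [← add_assoc, st_succ] at *
      rcases phase_cases W (st W (n + k)) (n + k) with h | ⟨h5, h6, h7⟩
      · exact absurd h h4
      · exact ⟨h5.trans h1, h6.trans h2, by omega⟩
  obtain ⟨h1, -, h3⟩ := key ((st W n).1.2.length + 1)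
  have := active_le (inv_st hW (n + ((st W n).1.2.length + 1)))
  rw [h1] at this
  omega

theorem exists_phase {W : ℕ → ℕ → ℕ} (hW : ∀ u, Function.Injective (W u)) :
    ∀ p, ∃ k, (st W k).2.2 = p ∧ (st W (k + 1)).2.2 = p + 1
  | 0 => by
    obtain ⟨k, -, h1, h2⟩ := phase_ends hW 0
    exact ⟨k, h1, h2⟩
  | p + 1 => by
    obtain ⟨k, h1, h2⟩ := exists_phase hW p
    obtain ⟨l, -, h3, h4⟩ := phase_ends hW (k + 1)
    exact ⟨l, by rw [h3, h2], by rw [h4, h2]⟩

/-- at the end of phase `p`, the number `p / 2` is matched, on the side of the phase -/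
theorem matched_end {W : ℕ → ℕ → ℕ} {s : St} {e : ℕ} (h : (step W (s, e)).2.2 = s.2.2 + 1) :
    ∃ c, List.lookup (s.2.2 / 2) (step W (s, e)).1.2 = some c := by
  rcases h1 : List.lookup (s.2.2 / 2) s.1.1 with _ | b
  · rcases h' : List.lookup (tgt W (s, e)) s.1.2 with _ | m'
    · rw [step_new h1 h']
      exact ⟨tgt W (s, e), by simp⟩
    · rw [step_act h1 h'] at h
      simp at h
  · rw [step_old (by rw [h1]; simp)]
    exact ⟨b, h1⟩

theorem dom_all {W : ℕ → ℕ → ℕ} (hW : ∀ u, Function.Injective (W u)) (m : ℕ) :
    ∃ k c, List.lookup m (ly (st W k)) = some c := by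
  obtain ⟨k, h1, h2⟩ := exists_phase hW (2 * m)
  rw [st_succ, ← h1] at h2
  obtain ⟨c, hc⟩ := matched_end h2
  refine ⟨k + 1, c, ?_⟩
  rw [h1] at hc h2
  have h3 : 2 * m / 2 = m := by omega
  rw [h3] at hc
  rw [st_succ, ly, h2]
  have h4 : (2 * m + 1).bodd = true := by simp [Nat.bodd_succ, Nat.bodd_mul]
  rw [h4]
  exact hc

theorem ran_all {W : ℕ → ℕ → ℕ} (hW : ∀ u, Function.Injective (W u)) (c : ℕ) :
    ∃ k m, List.lookup c (lx (st W k)) = some m := by
  obtain ⟨k, h1, h2⟩ := exists_phase hW (2 * c + 1)
  rw [st_succ, ← h1] at h2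
  obtain ⟨m, hm⟩ := matched_end h2
  refine ⟨k + 1, m, ?_⟩
  rw [h1] at hm h2
  have h3 : (2 * c + 1) / 2 = c := by omega
  rw [h3] at hm
  rw [st_succ, lx, h2]
  have h4 : (2 * c + 1 + 1).bodd = false := by simp [Nat.bodd_succ, Nat.bodd_mul]
  rw [h4]
  exact hm

/-! ### Colours -/

/-- colour of the source side -/
def cs (a b : ℕ → Bool) (p : ℕ) : ℕ → Bool := bif p.bodd then b else a

/-- colour of the target side -/
def ct (a b : ℕ → Bool) (p : ℕ) : ℕ → Bool := bif p.bodd then a else b

theorem cs_succ (a b : ℕ → Bool) (p : ℕ) : cs a b (p + 1) = ct a b p := by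
  simp only [cs, ct, Nat.bodd_succ]
  cases p.bodd <;> rfl

theorem ct_succ (a b : ℕ → Bool) (p : ℕ) : ct a b (p + 1) = cs a b p := by
  simp only [cs, ct, Nat.bodd_succ]
  cases p.bodd <;> rfl

/-- colours agree along the matching and on the active sources -/
def Col (a b : ℕ → Bool) (s : St) : Prop :=
  (∀ m c, List.lookup m s.1.1 = some c → cs a b s.2.2 m = ct a b s.2.2 c) ∧
  ∀ x ∈ s.2.1, cs a b s.2.2 x.2 = cs a b s.2.2 (s.2.2 / 2)

theorem col_step {W : ℕ → ℕ → ℕ} (hW : ∀ u, Function.Injective (W u)) {s : St} (hs : Inv s)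
    {e : ℕ} {a b : ℕ → Bool} (hc : Col a b s)
    (he : cs a b s.2.2 (cand s (fnd W (s, e))) = ct a b s.2.2 (tgt W (s, e))) :
    Col a b (step W (s, e)) := by
  rcases h : List.lookup (s.2.2 / 2) s.1.1 with _ | b'
  · obtain ⟨hj, -⟩ := fnd_spec hW hs e h
    have h0 : ct a b s.2.2 (tgt W (s, e)) = cs a b s.2.2 (s.2.2 / 2) := by
      rw [← he]
      rcases cand_cases hj with h1 | ⟨x, hx, h1⟩
      · rw [h1]
      · rw [h1]; exact hc.2 x hx
    rcases h' : List.lookup (tgt W (s, e)) s.1.2 with _ | m'
    · rw [step_new h h']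
      refine ⟨?_, by simp⟩
      intro m c hmc
      simp only [look_cons] at hmc
      simp only [cs_succ, ct_succ]
      by_cases h1 : m = tgt W (s, e)
      · rw [if_pos h1] at hmc
        rw [h1, ← Option.some_inj.1 hmc]
        exact h0
      · rw [if_neg h1] at hmc
        exact (hc.1 c m ((hs.match_iff _ _).2 hmc)).symm
    · rw [step_act h h']
      refine ⟨hc.1, ?_⟩
      intro x hx
      rcases List.mem_cons.1 hx with rfl | hx
      · have h2 := hc.1 m' _ ((hs.match_iff _ _).2 h')
        exact h2.trans h0
      · exact hc.2 x hx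
  · rw [step_old (by rw [h]; simp)]
    refine ⟨?_, by simp⟩
    intro m c hmc
    simp only [cs_succ, ct_succ]
    exact (hc.1 c m ((hs.match_iff _ _).2 hmc)).symm


/-! ### The inverse family and the main statement -/

theorem inverse_comp {σ : ℕ → ℕ → ℕ} (hσ : Computable₂ σ) (hb : ∀ e, Function.Bijective (σ e)) :
    ∃ τ : ℕ → ℕ → ℕ, Computable₂ τ ∧ (∀ e n, σ e (τ e n) = n) ∧ ∀ e n, τ e (σ e n) = n := by
  classical
  have hex : ∀ a : ℕ × ℕ, ∃ m, (σ a.1 m == a.2) = true := by
    intro a
    obtain ⟨m, hm⟩ := (hb a.1).2 a.2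
    exact ⟨m, by simpa using hm⟩
  have hg : Computable₂ (fun (a : ℕ × ℕ) (m : ℕ) => (σ a.1 m == a.2)) :=
    (Primrec.beq.to_comp).comp (hσ.comp (Computable.fst.comp Computable.fst) Computable.snd)
      (Computable.snd.comp Computable.fst)
  have h1 : Partrec₂ (fun (a : ℕ × ℕ) (m : ℕ) => (Part.some (σ a.1 m == a.2) : Part Bool)) :=
    hg.partrec₂
  have h2 := Partrec.rfind h1
  have h3 : Computable (fun a : ℕ × ℕ => Nat.find (hex a)) := by
    refine h2.of_eq (fun a => ?_)
    refine Part.eq_some_iff.2 (Nat.mem_rfind.2 ⟨?_, fun {m} hm => ?_⟩)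
    · have := Nat.find_spec (hex a)
      exact Part.mem_some_iff.2 this.symm
    · have := Nat.find_min (hex a) hm
      have h3 : (σ a.1 m == a.2) = false := by simpa using this
      exact Part.mem_some_iff.2 h3.symm
  have h4 : ∀ e n, σ e (Nat.find (hex (e, n))) = n := by
    intro e n
    have := Nat.find_spec (hex (e, n))
    simpa using this
  exact ⟨fun e n => Nat.find (hex (e, n)), h3, h4, fun e n => (hb e).1 (h4 e (σ e n))⟩

/-- **The matching lemma.** -/
theorem exists_match (σ : ℕ → ℕ → ℕ) (hσ : Computable₂ σ) (hb : ∀ e, Function.Bijective (σ e)) :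
    ∃ (q : ℕ → ℕ) (π : ℕ → ℕ), Computable π ∧ Function.Bijective π ∧
      ∀ a b : ℕ → Bool, (∀ e, a (q e) = b (σ e (q e))) → ∀ n, a n = b (π n) := by
  classical
  obtain ⟨τ, hτ, hστ, hτσ⟩ := inverse_comp hσ hb
  -- the oriented family
  set W : ℕ → ℕ → ℕ := fun u m => bif u.unpair.1.bodd then τ u.unpair.2 m else σ u.unpair.2 m
    with hWdef
  have hWc : Computable₂ W := by
    have hu : Computable (fun p : ℕ × ℕ => p.1.unpair) :=
      (Primrec.unpair.to_comp).comp Computable.fst
    have h1 : Computable (fun p : ℕ × ℕ => p.1.unpair.1.bodd) :=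
      (Primrec.nat_bodd.to_comp).comp (Computable.fst.comp hu)
    exact Computable.cond h1 (hτ.comp (Computable.snd.comp hu) Computable.snd)
      (hσ.comp (Computable.snd.comp hu) Computable.snd)
  have hW0 : ∀ p e m, p.bodd = false → W (Nat.pair p e) m = σ e m := by
    intro p e m hp
    simp only [hWdef, Nat.unpair_pair, hp, cond_false]
  have hW1 : ∀ p e m, p.bodd = true → W (Nat.pair p e) m = τ e m := by
    intro p e m hp
    simp only [hWdef, Nat.unpair_pair, hp, cond_true]
  have hWi : ∀ u, Function.Injective (W u) := by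
    intro u m m' h
    simp only [hWdef] at h
    rcases hb' : u.unpair.1.bodd with _ | _
    · rw [hb'] at h
      exact (hb _).1 h
    · rw [hb'] at h
      have h1 : τ u.unpair.2 m = τ u.unpair.2 m' := h
      rw [← hστ u.unpair.2 m, h1, hστ]
  -- the permutation
  have hex : ∀ n, ∃ k, (List.lookup n (ly (st W k))).isSome = true := by
    intro n
    obtain ⟨k, c, hc⟩ := dom_all hWi n
    exact ⟨k, by rw [hc]; rfl⟩
  set π : ℕ → ℕ := fun n => (List.lookup n (ly (st W (Nat.find (hex n))))).getD 0 with hπ
  have hl : Computable₂ (fun (n : ℕ) (D : List (ℕ × ℕ)) => List.lookup n D) :=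
    Primrec.listLookup.to_comp
  have hiS : Computable (fun o : Option ℕ => o.isSome) := Primrec.option_isSome.to_comp
  have hfc : Computable (fun n => Nat.find (hex n)) := by
    have h1 : Computable₂ (fun n k : ℕ => (List.lookup n (ly (st W k))).isSome) :=
      hiS.comp (hl.comp Computable.fst (ly_comp.comp ((st_comp hWc).comp Computable.snd)))
    have h0 : Partrec₂
        (fun n k : ℕ => (Part.some (List.lookup n (ly (st W k))).isSome : Part Bool)) := h1.partrec₂
    have h2 := Partrec.rfind h0
    refine h2.of_eq (fun a => ?_)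
    refine Part.eq_some_iff.2 (Nat.mem_rfind.2 ⟨?_, fun {m} hm => ?_⟩)
    · have := Nat.find_spec (hex a)
      exact Part.mem_some_iff.2 this.symm
    · have := Nat.find_min (hex a) hm
      have h3 : (List.lookup a (ly (st W m))).isSome = false := Bool.eq_false_iff.2 this
      exact Part.mem_some_iff.2 h3.symm
  have hπc : Computable π :=
    Computable.option_getD (hl.comp Computable.id (ly_comp.comp ((st_comp hWc).comp hfc)))
      (Computable.const 0)
  have hπe : ∀ n, List.lookup n (ly (st W (Nat.find (hex n)))) = some (π n) := by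
    intro n
    obtain ⟨c, hc⟩ := Option.isSome_iff_exists.1 (Nat.find_spec (hex n))
    simp only [hπ, hc, Option.getD_some]
  have hπu : ∀ n k c, List.lookup n (ly (st W k)) = some c → π n = c := by
    intro n k c h
    have h1 := persist_ly (le_max_left (Nat.find (hex n)) k) (hπe n)
    have h2 := persist_ly (le_max_right (Nat.find (hex n)) k) h
    rw [h1] at h2
    exact Option.some_inj.1 h2
  have hπb : Function.Bijective π := by
    constructor
    · intro m m' h
      have h1 := persist_ly (le_max_left (Nat.find (hex m)) (Nat.find (hex m'))) (hπe m)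
      have h2 := persist_ly (le_max_right (Nat.find (hex m)) (Nat.find (hex m'))) (hπe m')
      rw [← h] at h2
      have h3 := (ly_iff_lx (inv_st hWi _) _ _).1 h1
      have h4 := (ly_iff_lx (inv_st hWi _) _ _).1 h2
      rw [h3] at h4
      exact Option.some_inj.1 h4
    · intro c
      obtain ⟨k, m, h⟩ := ran_all hWi c
      exact ⟨m, hπu m k c ((ly_iff_lx (inv_st hWi k) _ _).2 h)⟩
  -- the edges
  refine ⟨fun e => bif (st W e).2.2.bodd then tgt W (st W e, e)
    else cand (st W e) (fnd W (st W e, e)), π, hπc, hπb, ?_⟩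
  intro a b hab
  have hcol : ∀ n, Col a b (st W n) := by
    intro n
    induction n with
    | zero => exact ⟨fun m c h => by simp [st] at h, by simp [st]⟩
    | succ n ih =>
      rw [st_succ]
      refine col_step hWi (inv_st hWi n) ih ?_
      have h := hab n
      have ht : tgt W (st W n, n) = W (Nat.pair (st W n).2.2 n) (cand (st W n) (fnd W (st W n, n))) :=
        rfl
      simp only [cs, ct]
      rcases hbd : (st W n).2.2.bodd with _ | _
      · rw [hW0 _ _ _ hbd] at ht
        simp only [hbd, cond_false] at h ⊢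
        rw [h, ← ht]
      · rw [hW1 _ _ _ hbd] at ht
        simp only [hbd, cond_true] at h ⊢
        rw [h, ht, hστ]
  intro n
  obtain ⟨k, h1⟩ : ∃ k, List.lookup n (ly (st W k)) = some (π n) := ⟨_, hπe n⟩
  have h2 := (hcol k).1
  simp only [cs, ct] at h2
  simp only [ly] at h1
  rcases hbd : (st W k).2.2.bodd with _ | _
  · simp only [hbd, cond_false] at h1 h2
    exact h2 _ _ h1
  · simp only [hbd, cond_true] at h1 h2
    exact (h2 _ _ (((inv_st hWi _).match_iff _ _).2 h1)).symm

end Pool.Agent.Helper65.CU
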